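import Pool.Agent.H25.EE.TargetsA

/-!
# A point which is not close to the members of a multiset
-/

set_option autoImplicit false

namespace Pool.Agent.H50.EE

open Pool.Agent.H25.EE

theorem pf_GP : T_GP := by
  classical
  intro S N c ρ hS hρ
  have hN : (0 : ℝ) < (N : ℝ) + 1 := by positivity
  set x : Fin (N + 1) → ℂ := fun j => c + ((ρ * (1 / 2 + (j : ℕ) / (2 * ((N : ℝ) + 1))) : ℝ) : ℂ)
    with hx
  have hdist : ∀ j j' : Fin (N + 1), x j - x j' =
      ((ρ * (((j : ℕ) : ℝ) - (j' : ℕ)) / (2 * ((N : ℝ) + 1)) : ℝ) : ℂ) := by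
    intro j j'
    simp only [hx]
    push_cast
    ring
  have hnorm : ∀ j : Fin (N + 1), ρ / 2 ≤ ‖x j - c‖ ∧ ‖x j - c‖ ≤ ρ := by
    intro j
    have h0 : x j - c = ((ρ * (1 / 2 + (j : ℕ) / (2 * ((N : ℝ) + 1))) : ℝ) : ℂ) := by
      simp only [hx]
      ring
    have h1 : (0 : ℝ) ≤ (j : ℕ) / (2 * ((N : ℝ) + 1)) := by positivity
    have h2 : ((j : ℕ) : ℝ) / (2 * ((N : ℝ) + 1)) ≤ 1 / 2 := by
      rw [div_le_div_iff₀ (by positivity) (by norm_num)]
      have h3 : ((j : ℕ) : ℝ) ≤ N := by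
        have := j.2
        exact_mod_cast (by omega : (j : ℕ) ≤ N)
      linarith
    rw [h0, Complex.norm_real, Real.norm_eq_abs, abs_of_nonneg (by positivity)]
    constructor
    · nlinarith
    · nlinarith
  have key : ∃ j : Fin (N + 1), ∀ β ∈ S, ρ / (4 * ((N : ℝ) + 1)) ≤ ‖x j - β‖ := by
    by_contra hcon
    push Not at hcon
    choose b hb hb' using hcon
    have hcard : S.toFinset.card < Fintype.card (Fin (N + 1)) := by
      rw [Fintype.card_fin]
      have := Multiset.toFinset_card_le S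
      omega
    obtain ⟨j, j', hne, he⟩ := Fintype.exists_ne_map_eq_of_card_lt
      (fun j : Fin (N + 1) => (⟨b j, Multiset.mem_toFinset.2 (hb j)⟩ : S.toFinset))
      (by rw [Fintype.card_coe]; exact hcard)
    have he' : b j = b j' := congrArg Subtype.val he
    have h1 : ‖x j - x j'‖ < ρ / (2 * ((N : ℝ) + 1)) := by
      have h2 : x j - x j' = (x j - b j) - (x j' - b j') := by
        rw [he']
        ring
      rw [h2]
      have h3 := norm_sub_le (x j - b j) (x j' - b j')
      have h4 := hb' j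
      have h5 := hb' j'
      have h6 : ρ / (4 * ((N : ℝ) + 1)) + ρ / (4 * ((N : ℝ) + 1)) = ρ / (2 * ((N : ℝ) + 1)) := by
        field_simp
        ring
      linarith
    rw [hdist, Complex.norm_real, Real.norm_eq_abs, abs_div, abs_mul, abs_of_pos hρ,
      abs_of_pos (by positivity : (0 : ℝ) < 2 * ((N : ℝ) + 1))] at h1
    rw [div_lt_div_iff_of_pos_right (by positivity)] at h1
    have h7 : |((j : ℕ) : ℝ) - ((j' : ℕ) : ℝ)| < 1 := by
      by_contra h8
      push Not at h8
      have := mul_le_mul_of_nonneg_left h8 hρ.le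
      linarith
    have h9 : |((j : ℕ) : ℤ) - ((j' : ℕ) : ℤ)| < 1 := by
      exact_mod_cast h7
    apply hne
    apply Fin.ext
    rw [Int.abs_lt_one_iff] at h9
    omega
  obtain ⟨j, hj⟩ := key
  refine ⟨x j, (hnorm j).2, fun β hβ => ?_⟩
  have h1 := hj β hβ
  rw [div_le_iff₀ (by positivity)] at h1
  have h0 : 0 ≤ ‖x j - β‖ := norm_nonneg _
  by_cases h2 : ‖β - c‖ < 2 * ρ
  · apply max_le
    · nlinarith
    · nlinarith
  · push Not at h2
    have h3 : ‖β - c‖ ≤ ‖x j - β‖ + ‖x j - c‖ := by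
      have h4 : β - c = (x j - c) - (x j - β) := by ring
      rw [h4]
      have := norm_sub_le (x j - c) (x j - β)
      linarith
    have h4 := (hnorm j).2
    have h5 : ‖β - c‖ ≤ 2 * ‖x j - β‖ := by linarith
    have h6 : 2 * ‖x j - β‖ ≤ 8 * ((N : ℝ) + 1) * ‖x j - β‖ := by
      have hN' : (0 : ℝ) ≤ N := Nat.cast_nonneg N
      have : (2 : ℝ) ≤ 8 * ((N : ℝ) + 1) := by linarith
      exact mul_le_mul_of_nonneg_right this h0
    apply max_le
    · linarith
    · linarith

end Pool.Agent.H50.EE
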